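import Mathlib

/-!
Algebraic part of the Addition Theorem: trajectories of permuting subgroups.
-/

open Set Filter Topology
open scoped Pointwise

namespace R337.Ent

variable {G : Type*} [Group G]

/-- the subgroup `T n` generated by `U, φ U, …, φ^{n-1} U`, defined recursively -/
def T (φ : G →* G) (U : Subgroup G) : ℕ → Subgroup G
  | 0 => ⊥
  | n + 1 => (T φ U n).map φ ⊔ U

theorem T_zero (φ : G →* G) (U : Subgroup G) : T φ U 0 = ⊥ := rfl

theorem T_succ (φ : G →* G) (U : Subgroup G) (n : ℕ) :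
    T φ U (n + 1) = (T φ U n).map φ ⊔ U := rfl

theorem T_one (φ : G →* G) (U : Subgroup G) : T φ U 1 = U := by
  rw [T_succ, T_zero, Subgroup.map_bot, bot_sup_eq]

theorem le_T (φ : G →* G) (U : Subgroup G) (n : ℕ) : U ≤ T φ U (n + 1) := by
  rw [T_succ]; exact le_sup_right

theorem map_T_le (φ : G →* G) (U : Subgroup G) (n : ℕ) :
    (T φ U n).map φ ≤ T φ U (n + 1) := by
  rw [T_succ]; exact le_sup_left

theorem T_le_succ (φ : G →* G) (U : Subgroup G) (n : ℕ) : T φ U n ≤ T φ U (n + 1) := by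
  induction n with
  | zero => rw [T_zero]; exact bot_le
  | succ n ih =>
    rw [T_succ φ U n, T_succ φ U (n + 1)]
    exact sup_le_sup_right (Subgroup.map_mono ih) _

theorem T_mono (φ : G →* G) (U : Subgroup G) : Monotone (T φ U) :=
  monotone_nat_of_le_succ (T_le_succ φ U)

theorem T_mono_left (φ : G →* G) {U V : Subgroup G} (h : U ≤ V) (n : ℕ) :
    T φ U n ≤ T φ V n := by
  induction n with
  | zero => exact le_rfl
  | succ n ih => exact sup_le_sup (Subgroup.map_mono ih) h

/-- the trajectory is computed by products of sets -/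
def Good (φ : G →* G) (U : Subgroup G) : Prop :=
  ∀ n, ((T φ U (n + 1) : Subgroup G) : Set G) = (((T φ U n).map φ : Subgroup G) : Set G) * U

theorem relIndex_of_mul {U N W : Subgroup G} (_hU : U ≤ W) (hN : N ≤ W)
    (h : (W : Set G) ⊆ (N : Set G) * (U : Set G)) : U.relIndex W = U.relIndex N := by
  symm
  refine Nat.card_congr (Equiv.ofBijective (Subgroup.quotientSubgroupOfEmbeddingOfLE U hN)
    ⟨(Subgroup.quotientSubgroupOfEmbeddingOfLE U hN).injective, ?_⟩)
  intro q
  induction q using QuotientGroup.induction_on with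
  | H w =>
    obtain ⟨n, hn, u, hu, he⟩ := h w.2
    refine ⟨QuotientGroup.mk ⟨n, hn⟩, ?_⟩
    rw [Subgroup.quotientSubgroupOfEmbeddingOfLE_apply_mk]
    rw [QuotientGroup.eq]
    rw [Subgroup.mem_subgroupOf]
    have : ((((Subgroup.inclusion hN) ⟨n, hn⟩)⁻¹ * w : W) : G) = u := by
      have he' : n * u = (w : G) := he
      simp [← he']
    rw [this]
    exact hu

/-- the second index formula along the trajectory -/
theorem relIndex_succ {φ : G →* G} {U : Subgroup G} (hg : Good φ U) (n : ℕ) :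
    (T φ U (n + 1)).relIndex (T φ U (n + 2)) =
      ((T φ U (n + 1)).comap φ).relIndex (T φ U (n + 1)) := by
  rw [Subgroup.relIndex_comap]
  refine relIndex_of_mul (T_le_succ _ _ _) (map_T_le _ _ _) ?_
  rw [hg (n + 1)]
  exact Set.mul_subset_mul_left (le_T φ U n)

theorem relIndex_fac {φ : G →* G} {U : Subgroup G} (hg : Good φ U) (n : ℕ) :
    (T φ U n).relIndex (T φ U (n + 1)) =
      (T φ U n).relIndex ((T φ U (n + 1)).comap φ ⊓ T φ U (n + 1)) *
        (T φ U (n + 1)).relIndex (T φ U (n + 2)) := by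
  rw [relIndex_succ hg n, ← Subgroup.inf_relIndex_right ((T φ U (n + 1)).comap φ)]
  rw [Subgroup.relIndex_mul_relIndex]
  · refine le_inf ?_ (T_le_succ _ _ _)
    rw [← Subgroup.map_le_iff_le_comap]
    exact map_T_le _ _ _
  · exact inf_le_right

/-- stabilisation of the indices -/
theorem stab {φ : G →* G} {U : Subgroup G} (hg : Good φ U)
    (hf : ∀ n, (T φ U (n + 1)).relIndex (T φ U (n + 2)) ≠ 0) :
    ∃ m : ℕ, (∀ n, m ≤ n → (T φ U (n + 1)).relIndex (T φ U (n + 2)) =
        (T φ U (m + 1)).relIndex (T φ U (m + 2))) ∧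
      ∀ n, m ≤ n → ∀ x, x ∈ T φ U (n + 2) → φ x ∈ T φ U (n + 2) → x ∈ T φ U (n + 1) := by
  classical
  set a : ℕ → ℕ := fun n => (T φ U (n + 1)).relIndex (T φ U (n + 2)) with ha
  have hfac : ∀ n, a n = (T φ U (n + 1)).relIndex
      ((T φ U (n + 2)).comap φ ⊓ T φ U (n + 2)) * a (n + 1) := fun n => relIndex_fac hg (n + 1)
  have hle : ∀ n, a (n + 1) ≤ a n := by
    intro n
    rw [hfac n]
    have h0 : a n ≠ 0 := hf n
    rw [hfac n] at h0
    exact Nat.le_mul_of_pos_left _ (Nat.pos_of_ne_zero (left_ne_zero_of_mul h0))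
  have hanti : Antitone a := antitone_nat_of_succ_le hle
  obtain ⟨m, hm⟩ : ∃ m, ∀ n, a m ≤ a n := by
    have hne : (Set.range a).Nonempty := Set.range_nonempty a
    obtain ⟨m, hm⟩ := Nat.sInf_mem hne
    exact ⟨m, fun n => hm ▸ Nat.sInf_le (Set.mem_range_self n)⟩
  refine ⟨m, fun n hn => le_antisymm (hanti hn) (hm n), ?_⟩
  intro n hn x hx hφx
  have h1 : a n = a (n + 1) := by
    apply le_antisymm _ (hle n)
    calc a n ≤ a m := hanti hn
      _ ≤ a (n + 1) := hm _
  have h2 := hfac n
  rw [← h1] at h2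
  have h3 : (T φ U (n + 1)).relIndex ((T φ U (n + 2)).comap φ ⊓ T φ U (n + 2)) = 1 := by
    have hpos : 0 < a n := Nat.pos_of_ne_zero (hf n)
    have : 1 * a n = (T φ U (n + 1)).relIndex
        ((T φ U (n + 2)).comap φ ⊓ T φ U (n + 2)) * a n := by rw [one_mul]; exact h2
    exact (Nat.eq_of_mul_eq_mul_right hpos this).symm
  rw [Subgroup.relIndex_eq_one] at h3
  exact h3 ⟨hφx, hx⟩

/-- the growth rate exists -/
theorem exists_rate {φ : G →* G} {U : Subgroup G} (hg : Good φ U)
    (hf : ∀ n, (T φ U (n + 1)).relIndex (T φ U (n + 2)) ≠ 0) :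
    ∃ L : ℝ, Tendsto (fun n : ℕ => Real.log (U.relIndex (T φ U n)) / n) atTop (𝓝 L) := by
  obtain ⟨m, hm, -⟩ := stab hg hf
  set c : ℕ := (T φ U (m + 1)).relIndex (T φ U (m + 2)) with hc
  have hcpos : 0 < c := Nat.pos_of_ne_zero (hf m)
  set C : ℕ := U.relIndex (T φ U (m + 1)) with hC
  have hform : ∀ k, U.relIndex (T φ U (m + 1 + k)) = C * c ^ k := by
    intro k
    induction k with
    | zero => simp [hC]
    | succ k ih =>
      have h1 : U.relIndex (T φ U (m + 1 + k)) *
          (T φ U (m + 1 + k)).relIndex (T φ U (m + 1 + (k + 1))) =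
          U.relIndex (T φ U (m + 1 + (k + 1))) := by
        apply Subgroup.relIndex_mul_relIndex
        · have : m + 1 + k = (m + k) + 1 := by ring
          rw [this]; exact le_T _ _ _
        · exact T_mono _ _ (by omega)
      have h2 : (T φ U (m + 1 + k)).relIndex (T φ U (m + 1 + (k + 1))) = c := by
        have h3 := hm (m + k) (by omega)
        have e1 : m + 1 + k = m + k + 1 := by ring
        have e2 : m + 1 + (k + 1) = m + k + 2 := by ring
        rw [e1, e2]; exact h3
      rw [← h1, h2, ih, pow_succ, mul_assoc]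
  have hC0 : C ≠ 0 := by
    have : ∀ n, U.relIndex (T φ U (n + 1)) ≠ 0 := by
      intro n
      induction n with
      | zero => rw [T_one, Subgroup.relIndex_self]; exact one_ne_zero
      | succ n ih =>
        rw [← Subgroup.relIndex_mul_relIndex U (T φ U (n + 1)) (T φ U (n + 2)) (le_T _ _ _)
          (T_le_succ _ _ _)]
        exact mul_ne_zero ih (hf n)
    exact this m
  refine ⟨Real.log c, ?_⟩
  have hev : (fun n : ℕ => Real.log (U.relIndex (T φ U n)) / n) =ᶠ[atTop]
      fun n : ℕ => (Real.log C - (m + 1) * Real.log c) * (n : ℝ)⁻¹ + Real.log c := by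
    filter_upwards [eventually_ge_atTop (m + 1)] with n hn
    obtain ⟨k, rfl⟩ := Nat.exists_eq_add_of_le hn
    rw [hform k]
    have hn0 : ((m + 1 + k : ℕ) : ℝ) ≠ 0 := by positivity
    rw [Nat.cast_mul, Nat.cast_pow, Real.log_mul (by exact_mod_cast hC0)
      (pow_ne_zero _ (by exact_mod_cast hcpos.ne')), Real.log_pow]
    field_simp
    push_cast
    ring
  rw [tendsto_congr' hev]
  have h0 : Tendsto (fun n : ℕ => (n : ℝ)⁻¹) atTop (𝓝 0) := tendsto_inv_atTop_nhds_zero_nat
  have := (h0.const_mul (Real.log C - (m + 1) * Real.log c)).add_const (Real.log c)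
  simpa using this

end R337.Ent
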