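import Pool.Agent.R337.Ent.Quo

/-!
Algebraic entropy of endomorphisms of topologically quasihamiltonian groups and the
Addition Theorem.
-/

open Set Filter Topology MeasureTheory
open scoped Pointwise

namespace R337.Ent

section Defs

variable {G : Type*} [Group G] [TopologicalSpace G]

variable (G) in
/-- topologically quasihamiltonian: `closure (XY) = closure (YX)` for all closed subgroups -/
def IsTQH : Prop :=
  ∀ X Y : Subgroup G, IsClosed (X : Set G) → IsClosed (Y : Set G) →
    closure ((X : Set G) * (Y : Set G)) = closure ((Y : Set G) * (X : Set G))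

variable (G) in
/-- strongly compactly covered: every element lies in a compact open normal subgroup -/
def StronglyCompactlyCovered : Prop :=
  ∀ x : G, ∃ N : Subgroup G, N.Normal ∧ IsCompact (N : Set G) ∧ IsOpen (N : Set G) ∧ x ∈ N

variable (G) in
/-- every element lies in a compact open subgroup -/
def CoveredByCompactOpen : Prop :=
  ∀ x : G, ∃ N : Subgroup G, IsCompact (N : Set G) ∧ IsOpen (N : Set G) ∧ x ∈ N

/-- a Borel measure which is finite on compact sets, positive on nonempty open sets and invariant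
under right translations; every right Haar measure is of this kind -/
structure IsRightHaar (μ : @Measure G (borel G)) : Prop where
  finite : ∀ K : Set G, IsCompact K → μ K < ⊤
  pos : ∀ U : Set G, IsOpen U → U.Nonempty → μ U ≠ 0
  inv : ∀ (g : G) (A : Set G), MeasurableSet[borel G] A → μ ((fun x => x * g) '' A) = μ A

/-- `T_n(φ, U) = U φ(U) ⋯ φ^{n-1}(U)`, a product of sets -/
def traj (φ : G →* G) (U : Set G) (n : ℕ) : Set G :=
  ((List.range n).map fun i => (φ^[i]) '' U).prod

/-- `H_alg(φ, U) = limsup log μ(T_n(φ, U)) / n` -/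
noncomputable def Halg (μ : @Measure G (borel G)) (φ : G →* G) (U : Set G) : EReal :=
  limsup (fun n : ℕ => ((Real.log (μ (traj φ U n)).toReal / n : ℝ) : EReal)) atTop

/-- `h_alg(φ)`, the supremum of `H_alg(φ, U)` over the compact neighbourhoods `U` of `1` -/
noncomputable def halg (μ : @Measure G (borel G)) (φ : G →* G) : EReal :=
  ⨆ U : {U : Set G // IsCompact U ∧ U ∈ 𝓝 (1 : G)}, Halg μ φ U.1

end Defs

section Traj

variable {G : Type*} [Group G]

theorem image_prod (φ : G →* G) (l : List (Set G)) : φ '' l.prod = (l.map (φ '' ·)).prod := by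
  induction l with
  | nil => simp [Set.singleton_one]
  | cons a l ih => rw [List.prod_cons, List.map_cons, List.prod_cons, Set.image_mul, ih]

theorem traj_zero (φ : G →* G) (C : Set G) : traj φ C 0 = 1 := by simp [traj]

theorem traj_succ (φ : G →* G) (C : Set G) (n : ℕ) : traj φ C (n + 1) = C * φ '' traj φ C n := by
  rw [traj, List.range_succ_eq_map, List.map_cons, List.prod_cons, List.map_map]
  have h0 : (φ^[0]) '' C = C := by simp
  rw [h0, traj, image_prod, List.map_map]
  congr 2
  apply List.map_congr_left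
  intro i _
  simp only [Function.comp_apply]
  rw [Function.iterate_succ', Set.image_comp]

theorem traj_mono (φ : G →* G) {C D : Set G} (h : C ⊆ D) (n : ℕ) : traj φ C n ⊆ traj φ D n := by
  induction n with
  | zero => rw [traj_zero, traj_zero]
  | succ n ih =>
    rw [traj_succ, traj_succ]
    exact Set.mul_subset_mul h (Set.image_mono ih)

theorem one_mem_traj (φ : G →* G) {C : Set G} (h : (1 : G) ∈ C) (n : ℕ) : (1 : G) ∈ traj φ C n := by
  induction n with
  | zero => rw [traj_zero]; exact Set.mem_one.2 rfl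
  | succ n ih =>
    rw [traj_succ]
    exact ⟨1, h, 1, ⟨1, ih, map_one φ⟩, one_mul 1⟩

theorem subset_traj (φ : G →* G) {C : Set G} (h : (1 : G) ∈ C) (n : ℕ) :
    C ⊆ traj φ C (n + 1) := by
  rw [traj_succ]
  intro x hx
  exact ⟨x, hx, 1, ⟨1, one_mem_traj φ h n, map_one φ⟩, mul_one x⟩

theorem traj_eq_T {φ : G →* G} {U : Subgroup G} (hg : Good φ U) (n : ℕ) :
    traj φ (U : Set G) n = (T φ U n : Set G) := by
  induction n with
  | zero => rw [traj_zero, T_zero, Subgroup.coe_bot]; rfl
  | succ n ih =>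
    rw [traj_succ, ih]
    have h1 := hg n
    have h2 : ((T φ U (n + 1) : Subgroup G) : Set G)⁻¹ = (T φ U (n + 1) : Set G) :=
      inv_coe_set
    rw [← h2, h1, mul_inv_rev, inv_coe_set, inv_coe_set]
    rfl

end Traj

section Top

variable {G : Type*} [Group G] [TopologicalSpace G] [IsTopologicalGroup G]

variable (G) in
/-- compact subgroups permute -/
def PC : Prop :=
  ∀ X Y : Subgroup G, IsCompact (X : Set G) → IsCompact (Y : Set G) →
    (X : Set G) * (Y : Set G) = (Y : Set G) * (X : Set G)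

theorem pc_of_tqh [T2Space G] (h : IsTQH G) : PC G := by
  intro X Y hX hY
  have h1 := h X Y hX.isClosed hY.isClosed
  rwa [(hX.mul hY).isClosed.closure_eq, (hY.mul hX).isClosed.closure_eq] at h1

omit [IsTopologicalGroup G] in
theorem pc_subgroup (h : PC G) (H : Subgroup G) : PC H := by
  intro X Y hX hY
  have hX' : IsCompact ((X.map H.subtype : Subgroup G) : Set G) := by
    rw [Subgroup.coe_map]
    exact hX.image continuous_subtype_val
  have hY' : IsCompact ((Y.map H.subtype : Subgroup G) : Set G) := by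
    rw [Subgroup.coe_map]
    exact hY.image continuous_subtype_val
  have h1 := h _ _ hX' hY'
  rw [Subgroup.coe_map, Subgroup.coe_map, ← Set.image_mul, ← Set.image_mul] at h1
  exact (Set.image_injective.2 Subtype.val_injective) h1

omit [TopologicalSpace G] [IsTopologicalGroup G] in
theorem coe_sup_of_perm {X Y : Subgroup G} (h : (X : Set G) * (Y : Set G) = (Y : Set G) * X) :
    ((X ⊔ Y : Subgroup G) : Set G) = (X : Set G) * (Y : Set G) := by
  let Z : Subgroup G :=
    { carrier := (X : Set G) * (Y : Set G)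
      one_mem' := ⟨1, X.one_mem, 1, Y.one_mem, one_mul 1⟩
      mul_mem' := by
        rintro _ _ ⟨a, ha, b, hb, rfl⟩ ⟨c, hc, d, hd, rfl⟩
        have h1 : b * c ∈ (X : Set G) * (Y : Set G) := by
          rw [h]; exact ⟨b, hb, c, hc, rfl⟩
        obtain ⟨c', hc', b', hb', he⟩ := h1
        refine ⟨a * c', X.mul_mem ha hc', b' * d, Y.mul_mem hb' hd, ?_⟩
        have he' : c' * b' = b * c := he
        show a * c' * (b' * d) = a * b * (c * d)
        calc a * c' * (b' * d) = a * (c' * b') * d := by group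
          _ = a * b * (c * d) := by rw [he']; group
      inv_mem' := by
        rintro _ ⟨a, ha, b, hb, rfl⟩
        rw [h]
        exact ⟨b⁻¹, Y.inv_mem hb, a⁻¹, X.inv_mem ha, by simp⟩ }
  apply Set.Subset.antisymm
  · have : X ⊔ Y ≤ Z := by
      refine sup_le ?_ ?_
      · intro x hx; exact ⟨x, hx, 1, Y.one_mem, mul_one x⟩
      · intro y hy; exact ⟨1, X.one_mem, y, hy, one_mul y⟩
    exact this
  · rintro _ ⟨a, ha, b, hb, rfl⟩
    exact Subgroup.mul_mem_sup ha hb

theorem compact_T (hpc : PC G) {φ : G →* G} (hφ : Continuous φ) {U : Subgroup G}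
    (hU : IsCompact (U : Set G)) (n : ℕ) : IsCompact (T φ U n : Set G) := by
  induction n with
  | zero => rw [T_zero, Subgroup.coe_bot]; exact isCompact_singleton
  | succ n ih =>
    rw [T_succ]
    have h1 : IsCompact (((T φ U n).map φ : Subgroup G) : Set G) := by
      rw [Subgroup.coe_map]; exact ih.image hφ
    rw [coe_sup_of_perm (hpc _ _ h1 hU)]
    exact h1.mul hU

theorem good_of_pc (hpc : PC G) {φ : G →* G} (hφ : Continuous φ) {U : Subgroup G}
    (hU : IsCompact (U : Set G)) : Good φ U := by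
  intro n
  rw [T_succ]
  have h1 : IsCompact (((T φ U n).map φ : Subgroup G) : Set G) := by
    rw [Subgroup.coe_map]; exact (compact_T hpc hφ hU n).image hφ
  exact coe_sup_of_perm (hpc _ _ h1 hU)

theorem open_T {φ : G →* G} {U : Subgroup G} (hU : IsOpen (U : Set G)) (n : ℕ) :
    IsOpen (T φ U (n + 1) : Set G) :=
  Subgroup.isOpen_mono (le_T φ U n) hU

theorem relIndex_ne_zero_of_compact {A B : Subgroup G} (hA : IsOpen (A : Set G))
    (hB : IsCompact (B : Set G)) : A.relIndex B ≠ 0 := by
  have : CompactSpace B := isCompact_iff_compactSpace.1 hB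
  have h1 : IsOpen ((A.subgroupOf B : Subgroup B) : Set B) := hA.preimage continuous_subtype_val
  have : Finite (B ⧸ A.subgroupOf B) := Subgroup.quotient_finite_of_isOpen _ h1
  exact Nat.card_pos.ne'

theorem sup_compact (hpc : PC G) {A B : Subgroup G} (hA : IsCompact (A : Set G))
    (hB : IsCompact (B : Set G)) : IsCompact ((A ⊔ B : Subgroup G) : Set G) := by
  rw [coe_sup_of_perm (hpc _ _ hA hB)]
  exact hA.mul hB

theorem measure_relIndex {μ : @Measure G (borel G)} (hμ : IsRightHaar μ) {U W : Subgroup G}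
    (hUW : U ≤ W) (hU : IsOpen (U : Set G)) (hW : IsCompact (W : Set G)) :
    (μ (W : Set G)).toReal = U.relIndex W * (μ (U : Set G)).toReal := by
  let _ : MeasurableSpace G := borel G
  have : BorelSpace G := ⟨rfl⟩
  have : CompactSpace W := isCompact_iff_compactSpace.1 hW
  have h1 : IsOpen ((U.subgroupOf W : Subgroup W) : Set W) := hU.preimage continuous_subtype_val
  have : Finite (W ⧸ U.subgroupOf W) := Subgroup.quotient_finite_of_isOpen _ h1
  have : Fintype (W ⧸ U.subgroupOf W) := Fintype.ofFinite _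
  let f : W ⧸ U.subgroupOf W → Set G := fun q => (fun x => x * ((q.out : W) : G)⁻¹) '' (U : Set G)
  have hmeas : ∀ q, MeasurableSet (f q) := by
    intro q
    have : IsOpen (f q) := (isOpenMap_mul_right (((q.out : W) : G)⁻¹)) _ hU
    exact this.measurableSet
  have hdisj : Pairwise (Function.onFun Disjoint f) := by
    intro q r hqr
    rw [Function.onFun, Set.disjoint_left]
    rintro _ ⟨u, hu, rfl⟩ ⟨v, hv, he⟩
    apply hqr
    have he' : v * ((r.out : W) : G)⁻¹ = u * ((q.out : W) : G)⁻¹ := he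
    rw [← QuotientGroup.out_eq' q, ← QuotientGroup.out_eq' r, QuotientGroup.eq,
      Subgroup.mem_subgroupOf]
    have h2 : (((q.out : W)⁻¹ * (r.out : W) : W) : G) = u⁻¹ * v := by
      push_cast
      have : ((q.out : W) : G)⁻¹ = u⁻¹ * (v * ((r.out : W) : G)⁻¹) := by rw [he']; group
      rw [this]; group
    rw [h2]
    exact U.mul_mem (U.inv_mem hu) hv
  have hun : (W : Set G) = ⋃ q, f q := by
    ext w
    constructor
    · intro hw
      rw [Set.mem_iUnion]
      refine ⟨QuotientGroup.mk (⟨w, hw⟩ : W)⁻¹, ?_⟩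
      set q : W ⧸ U.subgroupOf W := QuotientGroup.mk (⟨w, hw⟩ : W)⁻¹ with hq
      have h2 : (QuotientGroup.mk (q.out : W) : W ⧸ U.subgroupOf W) =
          QuotientGroup.mk (⟨w, hw⟩ : W)⁻¹ := QuotientGroup.out_eq' q
      rw [eq_comm, QuotientGroup.eq, Subgroup.mem_subgroupOf] at h2
      refine ⟨w * ((q.out : W) : G), ?_, by simp⟩
      simpa using h2
    · rw [Set.mem_iUnion]
      rintro ⟨q, u, hu, rfl⟩
      exact W.mul_mem (hUW hu) (W.inv_mem (q.out : W).2)
  rw [hun, measure_iUnion hdisj hmeas]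
  have h3 : ∀ q, μ (f q) = μ (U : Set G) := fun q => hμ.inv _ _ hU.measurableSet
  simp_rw [h3]
  rw [tsum_fintype, Finset.sum_const, nsmul_eq_mul, ENNReal.toReal_mul]
  congr 1
  rw [Finset.card_univ, ENNReal.toReal_natCast, ← Nat.card_eq_fintype_card]
  rfl

theorem Halg_eq {μ : @Measure G (borel G)} (hμ : IsRightHaar μ) {φ : G →* G} {U : Subgroup G}
    (hg : Good φ U) (hU : IsOpen (U : Set G)) (hc : ∀ n, IsCompact (T φ U n : Set G)) {L : ℝ}
    (hL : Tendsto (fun n : ℕ => Real.log (U.relIndex (T φ U n)) / n) atTop (𝓝 L)) :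
    Halg μ φ (U : Set G) = L := by
  have hUc : IsCompact (U : Set G) := by have := hc 1; rwa [T_one] at this
  have hpos : 0 < (μ (U : Set G)).toReal :=
    ENNReal.toReal_pos (hμ.pos _ hU ⟨1, U.one_mem⟩) (hμ.finite _ hUc).ne
  unfold Halg
  apply Tendsto.limsup_eq
  refine (continuous_coe_real_ereal.tendsto L).comp ?_
  have hev : (fun n : ℕ => Real.log (μ (traj φ (U : Set G) n)).toReal / n) =ᶠ[atTop]
      fun n : ℕ => Real.log (U.relIndex (T φ U n)) / n +
        Real.log (μ (U : Set G)).toReal * (n : ℝ)⁻¹ := by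
    filter_upwards [eventually_ge_atTop 1] with n hn
    obtain ⟨k, rfl⟩ := Nat.exists_eq_add_of_le' hn
    rw [traj_eq_T hg, measure_relIndex hμ (le_T φ U k) hU (hc _), Real.log_mul _ hpos.ne']
    · ring
    · exact_mod_cast relIndex_ne_zero_of_compact hU (hc _)
  rw [tendsto_congr' hev]
  simpa using hL.add ((tendsto_inv_atTop_nhds_zero_nat (𝕜 := ℝ)).const_mul
    (Real.log (μ (U : Set G)).toReal))

omit [IsTopologicalGroup G] in
/-- monotonicity of `H_alg` -/
theorem Halg_mono {μ : @Measure G (borel G)} (hμ : IsRightHaar μ) {φ : G →* G} {C : Set G}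
    (hC : C ∈ 𝓝 (1 : G)) {U : Subgroup G} (hCU : C ⊆ U) (hg : Good φ U)
    (hc : ∀ n, IsCompact (T φ U n : Set G)) :
    Halg μ φ C ≤ Halg μ φ (U : Set G) := by
  refine limsup_le_limsup ?_
  filter_upwards [eventually_ge_atTop 1] with n hn
  obtain ⟨k, rfl⟩ := Nat.exists_eq_add_of_le' hn
  rw [EReal.coe_le_coe_iff]
  have h1C : (1 : G) ∈ C := mem_of_mem_nhds hC
  have hfin : μ (traj φ (U : Set G) (k + 1)) < ⊤ := by
    rw [traj_eq_T hg]; exact hμ.finite _ (hc _)
  have hsub := traj_mono φ hCU (k + 1)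
  have hle : μ (traj φ C (k + 1)) ≤ μ (traj φ (U : Set G) (k + 1)) := measure_mono hsub
  have hpos : 0 < μ (traj φ C (k + 1)) := by
    have h2 : μ (interior C) ≠ 0 :=
      hμ.pos _ isOpen_interior ⟨1, mem_interior_iff_mem_nhds.2 hC⟩
    refine lt_of_lt_of_le (pos_iff_ne_zero.2 h2) (measure_mono ?_)
    exact interior_subset.trans (subset_traj φ h1C k)
  have h3 : 0 < (μ (traj φ C (k + 1))).toReal :=
    ENNReal.toReal_pos hpos.ne' (lt_of_le_of_lt hle hfin).ne
  refine div_le_div_of_nonneg_right (Real.log_le_log h3 ?_) (by positivity)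
  exact ENNReal.toReal_mono hfin.ne hle

theorem exists_cover (hpc : PC G) (hcov : CoveredByCompactOpen G) {X : Type*} [TopologicalSpace X]
    (F : Subgroup G → Set X) (hmono : Monotone F) (hopen : ∀ N : Subgroup G,
      IsOpen (N : Set G) → IsOpen (F N)) (hF : ∀ x, ∃ g : G, ∀ N : Subgroup G, g ∈ N → x ∈ F N)
    {K : Set X} (hK : IsCompact K) :
    ∃ N : Subgroup G, IsCompact (N : Set G) ∧ IsOpen (N : Set G) ∧ K ⊆ F N := by
  obtain ⟨N1, hN1c, hN1o, -⟩ := hcov 1
  have : Nonempty {N : Subgroup G // IsCompact (N : Set G) ∧ IsOpen (N : Set G)} :=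
    ⟨⟨N1, hN1c, hN1o⟩⟩
  obtain ⟨N, hN⟩ := hK.elim_directed_cover
    (fun N : {N : Subgroup G // IsCompact (N : Set G) ∧ IsOpen (N : Set G)} => F N.1)
    (fun N => hopen _ N.2.2)
    (by
      intro x _
      obtain ⟨g, hg⟩ := hF x
      obtain ⟨N, hNc, hNo, hgN⟩ := hcov g
      exact Set.mem_iUnion.2 ⟨⟨N, hNc, hNo⟩, hg N hgN⟩)
    (by
      intro A B
      refine ⟨⟨A.1 ⊔ B.1, sup_compact hpc A.2.1 B.2.1,
        Subgroup.isOpen_mono le_sup_left A.2.2⟩, ?_, ?_⟩
      · exact hmono le_sup_left
      · exact hmono le_sup_right)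
  exact ⟨N.1, N.2.1, N.2.2, hN⟩

/-- right Haar measures exist on every locally compact group -/
theorem exists_isRightHaar [LocallyCompactSpace G] : ∃ μ : @Measure G (borel G), IsRightHaar μ := by
  let _ : MeasurableSpace G := borel G
  have : BorelSpace G := ⟨rfl⟩
  refine ⟨(Measure.haar : Measure G).inv, ?_, ?_, ?_⟩
  · intro K hK
    rw [Measure.inv_apply]
    exact hK.inv.measure_lt_top
  · intro U hU hne
    rw [Measure.inv_apply]
    exact hU.inv.measure_ne_zero _ hne.inv
  · intro g A _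
    rw [Measure.inv_apply, Measure.inv_apply]
    have : ((fun x => x * g) '' A)⁻¹ = (fun x => g * x) ⁻¹' A⁻¹ := by
      ext x
      simp only [Set.mem_inv, Set.mem_image, Set.mem_preimage, mul_inv_rev]
      constructor
      · rintro ⟨a, ha, he⟩
        rw [← he]; simpa using ha
      · intro h
        exact ⟨x⁻¹ * g⁻¹, h, by group⟩
    rw [this, measure_preimage_mul]

end Top

section Main

variable {G : Type*} [Group G] [TopologicalSpace G] [IsTopologicalGroup G]

/-- **Addition Theorem**, for groups whose compact subgroups permute -/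
theorem addition (hpc : PC G) (hcov : CoveredByCompactOpen G) (φ : G →* G) (hφ : Continuous φ)
    (H : Subgroup G) [H.Normal] (hHc : IsClosed (H : Set G)) (hH : H ≤ H.comap φ)
    {μ : @Measure G (borel G)} (hμ : IsRightHaar μ)
    {μH : @Measure H (borel H)} (hμH : IsRightHaar μH)
    {μQ : @Measure (G ⧸ H) (borel (G ⧸ H))} (hμQ : IsRightHaar μQ) :
    halg μ φ = halg μQ (quoHom φ H hH) + halg μH (resHom φ H hH) := by
  set π : G →* G ⧸ H := QuotientGroup.mk' H with hπ
  have hπc : Continuous π := continuous_quot_mk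
  have hπo : IsOpenMap π := QuotientGroup.isOpenMap_coe
  have hpcH : PC H := pc_subgroup hpc H
  have hresc : Continuous (resHom φ H hH) := by
    apply Continuous.subtype_mk
    exact hφ.comp continuous_subtype_val
  -- data attached to a compact open subgroup
  have main : ∀ U : Subgroup G, IsCompact (U : Set G) → IsOpen (U : Set G) →
      ∃ (LG LQ LH : ℝ) (V : Subgroup H), LG = LQ + LH ∧ Halg μ φ (U : Set G) = LG ∧
        Halg μQ (quoHom φ H hH) ((U.map π : Subgroup (G ⧸ H)) : Set (G ⧸ H)) = LQ ∧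
        IsCompact (V : Set H) ∧ IsOpen (V : Set H) ∧
        Halg μH (resHom φ H hH) (V : Set H) = LH ∧
        Halg μH (resHom φ H hH) ((U.subgroupOf H : Subgroup H) : Set H) ≤ LH := by
    intro U hUc hUo
    have hg := good_of_pc hpc hφ hUc
    have hTc := compact_T hpc hφ hUc
    have hTo : ∀ n, IsOpen (T φ U (n + 1) : Set G) := open_T hUo
    have hf : ∀ n, (T φ U (n + 1)).relIndex (T φ U (n + 2)) ≠ 0 := fun n =>
      relIndex_ne_zero_of_compact (hTo n) (hTc _)
    obtain ⟨LG, hLG⟩ := exists_rate hg hf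
    -- the quotient
    have hgQ := good_quo φ H hH hg
    have hQo : IsOpen ((U.map π : Subgroup (G ⧸ H)) : Set (G ⧸ H)) := by
      rw [Subgroup.coe_map]; exact hπo _ hUo
    have hTcQ : ∀ n, IsCompact (T (quoHom φ H hH) (U.map π) n : Set (G ⧸ H)) := by
      intro n
      rw [hπ, T_quo, Subgroup.coe_map]
      exact (hTc n).image hπc
    have hfQ : ∀ n, (T (quoHom φ H hH) (U.map π) (n + 1)).relIndex
        (T (quoHom φ H hH) (U.map π) (n + 2)) ≠ 0 := by
      intro n
      rw [hπ, T_quo, T_quo]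
      exact relIndex_quo_ne_zero H (hf n)
    obtain ⟨LQ, hLQ⟩ := exists_rate hgQ hfQ
    -- the subgroup
    obtain ⟨m, hm⟩ := T_res_eq φ H hH hg hf
    set V : Subgroup H := (T φ U (m + 2)).subgroupOf H with hV
    have hsubc : ∀ {A : Subgroup G}, IsCompact (A : Set G) →
        IsCompact ((A.subgroupOf H : Subgroup H) : Set H) := by
      intro A hA
      exact hHc.isClosedEmbedding_subtypeVal.isCompact_preimage hA
    have hsubo : ∀ {A : Subgroup G}, IsOpen (A : Set G) →
        IsOpen ((A.subgroupOf H : Subgroup H) : Set H) := by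
      intro A hA
      exact hA.preimage continuous_subtype_val
    have hVc : IsCompact (V : Set H) := hsubc (hTc _)
    have hVo : IsOpen (V : Set H) := hsubo (hTo _)
    have hgV := good_of_pc hpcH hresc hVc
    have hTcV := compact_T hpcH hresc hVc
    have hfV : ∀ n, (T (resHom φ H hH) V (n + 1)).relIndex (T (resHom φ H hH) V (n + 2)) ≠ 0 :=
      fun n => relIndex_ne_zero_of_compact (open_T hVo n) (hTcV _)
    obtain ⟨LH, hLH⟩ := exists_rate hgV hfV
    have hfr : ∀ n, (U.subgroupOf H).relIndex ((T φ U (n + 1)).subgroupOf H) ≠ 0 := fun n =>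
      relIndex_ne_zero_of_compact (hsubo hUo) (hsubc (hTc _))
    have hres := rate_res φ H hH hm hfr hLH
    -- additivity
    have hsum : LG = LQ + LH := by
      refine tendsto_nhds_unique hLG ?_
      refine (hLQ.add hres).congr' ?_
      filter_upwards [eventually_ge_atTop 1] with n hn
      obtain ⟨k, rfl⟩ := Nat.exists_eq_add_of_le' hn
      rw [relIndex_split H (le_T φ U k), Nat.cast_mul, Real.log_mul, T_quo]
      · ring
      · have h1 : (U.map (QuotientGroup.mk' H)).relIndex
            ((T φ U (k + 1)).map (QuotientGroup.mk' H)) ≠ 0 :=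
          relIndex_quo_ne_zero H (relIndex_ne_zero_of_compact hUo (hTc _))
        exact_mod_cast h1
      · exact_mod_cast hfr k
    refine ⟨LG, LQ, LH, V, hsum, Halg_eq hμ hg hUo hTc hLG, Halg_eq hμQ hgQ hQo hTcQ hLQ,
      hVc, hVo, Halg_eq hμH hgV hVo hTcV hLH, ?_⟩
    -- the trace of `U`
    have hUHc := hsubc hUc
    have hUHo := hsubo hUo
    have hgU := good_of_pc hpcH hresc hUHc
    have hTcU := compact_T hpcH hresc hUHc
    have hfU : ∀ n, (T (resHom φ H hH) (U.subgroupOf H) (n + 1)).relIndex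
        (T (resHom φ H hH) (U.subgroupOf H) (n + 2)) ≠ 0 :=
      fun n => relIndex_ne_zero_of_compact (open_T hUHo n) (hTcU _)
    obtain ⟨L', hL'⟩ := exists_rate hgU hfU
    rw [Halg_eq hμH hgU hUHo hTcU hL', EReal.coe_le_coe_iff]
    refine le_of_tendsto_of_tendsto hL' hres ?_
    filter_upwards [eventually_ge_atTop 1] with n hn
    obtain ⟨k, rfl⟩ := Nat.exists_eq_add_of_le' hn
    have h1 : (U.subgroupOf H).relIndex (T (resHom φ H hH) (U.subgroupOf H) (k + 1)) ≤
        (U.subgroupOf H).relIndex ((T φ U (k + 1)).subgroupOf H) :=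
      Subgroup.relIndex_le_of_le_right (T_res_le φ H hH U (k + 1)) (hfr k)
    have h2 : 0 < (U.subgroupOf H).relIndex (T (resHom φ H hH) (U.subgroupOf H) (k + 1)) :=
      Nat.pos_of_ne_zero (relIndex_ne_zero_of_compact hUHo (hTcU _))
    refine div_le_div_of_nonneg_right (Real.log_le_log ?_ ?_) (by positivity)
    · exact_mod_cast h2
    · exact_mod_cast h1
  apply le_antisymm
  · -- upper bound
    refine iSup_le fun C => ?_
    obtain ⟨U, hUc, hUo, hCU⟩ := exists_cover hpc hcov (fun N : Subgroup G => (N : Set G))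
      (fun A B h => h) (fun N hN => hN) (fun x => ⟨x, fun N hN => hN⟩) C.2.1
    obtain ⟨LG, LQ, LH, V, hsum, h1, h2, hVc, hVo, h3, -⟩ := main U hUc hUo
    have h4 : Halg μ φ C.1 ≤ LG := by
      rw [← h1]
      exact Halg_mono hμ C.2.2 hCU (good_of_pc hpc hφ hUc) (compact_T hpc hφ hUc)
    refine h4.trans ?_
    rw [hsum, EReal.coe_add, ← h2, ← h3]
    refine add_le_add ?_ ?_
    · refine le_iSup (fun W : {U : Set (G ⧸ H) // IsCompact U ∧ U ∈ 𝓝 (1 : G ⧸ H)} =>
        Halg μQ (quoHom φ H hH) W.1) ⟨((U.map π : Subgroup (G ⧸ H)) : Set (G ⧸ H)), ?_, ?_⟩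
      · rw [Subgroup.coe_map]; exact hUc.image hπc
      · refine IsOpen.mem_nhds ?_ (Subgroup.one_mem _)
        rw [Subgroup.coe_map]; exact hπo _ hUo
    · exact le_iSup (fun W : {U : Set H // IsCompact U ∧ U ∈ 𝓝 (1 : H)} =>
        Halg μH (resHom φ H hH) W.1) ⟨(V : Set H), hVc, hVo.mem_nhds V.one_mem⟩
  · -- lower bound
    refine EReal.add_le_of_forall_lt fun a ha b hb => ?_
    obtain ⟨C1, hC1⟩ := lt_iSup_iff.1 ha
    obtain ⟨C2, hC2⟩ := lt_iSup_iff.1 hb
    obtain ⟨N1, hN1c, hN1o, hCN1⟩ := exists_cover hpc hcov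
      (fun N : Subgroup G => ((N.map π : Subgroup (G ⧸ H)) : Set (G ⧸ H)))
      (fun A B h => Subgroup.map_mono h)
      (fun N hN => by rw [Subgroup.coe_map]; exact hπo _ hN)
      (fun x => by
        obtain ⟨g, rfl⟩ := QuotientGroup.mk'_surjective H x
        exact ⟨g, fun N hN => ⟨g, hN, rfl⟩⟩) C1.2.1
    obtain ⟨N2, hN2c, hN2o, hCN2⟩ := exists_cover hpc hcov
      (fun N : Subgroup G => ((N.subgroupOf H : Subgroup H) : Set H))
      (fun A B h => Subgroup.comap_mono h)
      (fun N hN => hN.preimage continuous_subtype_val)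
      (fun x => ⟨(x : G), fun N hN => hN⟩) C2.2.1
    set N : Subgroup G := N1 ⊔ N2 with hN
    have hNc : IsCompact (N : Set G) := sup_compact hpc hN1c hN2c
    have hNo : IsOpen (N : Set G) := Subgroup.isOpen_mono le_sup_left hN1o
    obtain ⟨LG, LQ, LH, V, hsum, h1, h2, hVc, hVo, h3, h4⟩ := main N hNc hNo
    have hg := good_of_pc hpc hφ hNc
    have hTc := compact_T hpc hφ hNc
    have h5 : Halg μQ (quoHom φ H hH) C1.1 ≤ LQ := by
      rw [← h2]
      refine Halg_mono hμQ C1.2.2 (hCN1.trans ?_) (good_quo φ H hH hg) ?_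
      · exact Subgroup.map_mono le_sup_left
      · intro n
        rw [hπ, T_quo, Subgroup.coe_map]
        exact (hTc n).image hπc
    have h6 : Halg μH (resHom φ H hH) C2.1 ≤ LH := by
      refine le_trans ?_ h4
      have hc' : IsCompact ((N.subgroupOf H : Subgroup H) : Set H) :=
        hHc.isClosedEmbedding_subtypeVal.isCompact_preimage hNc
      refine Halg_mono hμH C2.2.2 (hCN2.trans ?_) (good_of_pc hpcH hresc hc')
        (compact_T hpcH hresc hc')
      exact Subgroup.comap_mono le_sup_right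
    calc a + b ≤ LQ + LH := add_le_add (hC1.le.trans h5) (hC2.le.trans h6)
      _ = LG := by rw [hsum, EReal.coe_add]
      _ = Halg μ φ (N : Set G) := h1.symm
      _ ≤ halg μ φ := le_iSup (fun W : {U : Set G // IsCompact U ∧ U ∈ 𝓝 (1 : G)} =>
          Halg μ φ W.1) ⟨(N : Set G), hNc, hNo.mem_nhds N.one_mem⟩

end Main

end R337.Ent
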