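import Pool.Agent.R337.Ent.Alg

/-!
Passing to an invariant normal subgroup and to the quotient.
-/

open Set Filter Topology
open scoped Pointwise

namespace R337.Ent

variable {G : Type*} [Group G]

/-- restriction of an endomorphism to an invariant subgroup -/
def resHom (φ : G →* G) (H : Subgroup G) (h : H ≤ H.comap φ) : H →* H :=
  (φ.comp H.subtype).codRestrict H fun x => h x.2

@[simp] theorem coe_resHom (φ : G →* G) (H : Subgroup G) (h : H ≤ H.comap φ) (x : H) :
    ((resHom φ H h x : H) : G) = φ x := rfl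

variable (φ : G →* G) (H : Subgroup G) [H.Normal] (hH : H ≤ H.comap φ)

/-- the induced endomorphism of the quotient -/
abbrev quoHom (φ : G →* G) (H : Subgroup G) [H.Normal] (hH : H ≤ H.comap φ) : G ⧸ H →* G ⧸ H :=
  QuotientGroup.map H H φ hH

theorem T_quo (U : Subgroup G) (n : ℕ) :
    T (quoHom φ H hH) (U.map (QuotientGroup.mk' H)) n = (T φ U n).map (QuotientGroup.mk' H) := by
  induction n with
  | zero => simp [T_zero]
  | succ n ih =>
    rw [T_succ, T_succ, Subgroup.map_sup, ih, Subgroup.map_map, Subgroup.map_map]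
    congr 1

theorem good_quo {U : Subgroup G} (hg : Good φ U) :
    Good (quoHom φ H hH) (U.map (QuotientGroup.mk' H)) := by
  intro n
  have h1 := hg n
  rw [T_quo, T_quo, Subgroup.map_map]
  have h2 : (quoHom φ H hH).comp (QuotientGroup.mk' H) = (QuotientGroup.mk' H).comp φ := by
    ext x; rfl
  rw [h2, ← Subgroup.map_map]
  rw [Subgroup.coe_map, h1, Set.image_mul]
  rfl

omit [H.Normal] in
theorem T_res_le (U : Subgroup G) (n : ℕ) :
    T (resHom φ H hH) (U.subgroupOf H) n ≤ (T φ U n).subgroupOf H := by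
  induction n with
  | zero => rw [T_zero]; exact bot_le
  | succ n ih =>
    rw [T_succ]
    refine sup_le ?_ ?_
    · rw [Subgroup.map_le_iff_le_comap]
      intro x hx
      have h1 := ih hx
      rw [Subgroup.mem_subgroupOf] at h1
      rw [Subgroup.mem_comap, Subgroup.mem_subgroupOf]
      exact map_T_le φ U n ⟨x, h1, rfl⟩
    · exact Subgroup.comap_mono (le_T φ U n)

theorem relIndex_split {U W : Subgroup G} (hU : U ≤ W) :
    U.relIndex W = (U.map (QuotientGroup.mk' H)).relIndex (W.map (QuotientGroup.mk' H)) *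
      (U.subgroupOf H).relIndex (W.subgroupOf H) := by
  have h1 : (U.map (QuotientGroup.mk' H)).relIndex (W.map (QuotientGroup.mk' H)) =
      ((U ⊔ H) ⊓ W).relIndex W := by
    rw [← Subgroup.relIndex_comap, Subgroup.comap_map_eq, QuotientGroup.ker_mk',
      Subgroup.inf_relIndex_right]
  have h2 : (U.subgroupOf H).relIndex (W.subgroupOf H) = U.relIndex (W ⊓ H) := by
    have e1 : U.subgroupOf H = (U ⊓ (W ⊓ H)).subgroupOf H := by
      ext x
      simp only [Subgroup.mem_subgroupOf, Subgroup.mem_inf]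
      exact ⟨fun h => ⟨h, hU h, x.2⟩, fun h => h.1⟩
    have e2 : W.subgroupOf H = (W ⊓ H).subgroupOf H := by
      rw [Subgroup.inf_subgroupOf_right]
    rw [e1, e2, Subgroup.relIndex_subgroupOf inf_le_right, Subgroup.inf_relIndex_right]
  have h3 : U.relIndex ((U ⊔ H) ⊓ W) = U.relIndex (W ⊓ H) := by
    refine relIndex_of_mul (le_inf le_sup_left hU) (le_inf (inf_le_right.trans le_sup_right)
      inf_le_left) ?_
    rintro x ⟨hx1, hx2⟩
    have hx1' : x ∈ ((H : Set G) * (U : Set G)) := by
      have : x ∈ ((H ⊔ U : Subgroup G) : Set G) := by rw [sup_comm]; exact hx1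
      rwa [Subgroup.normal_mul] at this
    obtain ⟨h, hh, u, hu, rfl⟩ := hx1'
    refine ⟨h, ⟨?_, hh⟩, u, hu, rfl⟩
    have : h = (h * u) * u⁻¹ := by group
    rw [this]
    exact W.mul_mem hx2 (W.inv_mem (hU hu))
  rw [h1, h2, ← h3, mul_comm, Subgroup.relIndex_mul_relIndex]
  · exact le_inf le_sup_left hU
  · exact inf_le_right

theorem relIndex_quo_ne_zero {A B : Subgroup G} (h : A.relIndex B ≠ 0) :
    (A.map (QuotientGroup.mk' H)).relIndex (B.map (QuotientGroup.mk' H)) ≠ 0 := by
  rw [← Subgroup.relIndex_comap]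
  intro h0
  exact h (Subgroup.relIndex_eq_zero_of_le_left (Subgroup.le_comap_map _ _) h0)

omit [H.Normal] in
theorem relIndex_res_ne_zero {A B : Subgroup G} (h : A.relIndex B ≠ 0) :
    (A.subgroupOf H).relIndex (B.subgroupOf H) ≠ 0 := by
  have h1 := Subgroup.relIndex_comap_ne_zero H.subtype h
  exact h1

/-- the trajectory of the trace on `H` -/
theorem T_res_eq {U : Subgroup G} (hg : Good φ U)
    (hf : ∀ n, (T φ U (n + 1)).relIndex (T φ U (n + 2)) ≠ 0) :
    ∃ m : ℕ, ∀ k : ℕ, T (resHom φ H hH) ((T φ U (m + 2)).subgroupOf H) (k + 1) =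
      (T φ U (m + 2 + k)).subgroupOf H := by
  have hfQ : ∀ n, (T (quoHom φ H hH) (U.map (QuotientGroup.mk' H)) (n + 1)).relIndex
      (T (quoHom φ H hH) (U.map (QuotientGroup.mk' H)) (n + 2)) ≠ 0 := by
    intro n
    rw [T_quo, T_quo]
    exact relIndex_quo_ne_zero H (hf n)
  obtain ⟨m, -, hm⟩ := stab (good_quo φ H hH hg) hfQ
  refine ⟨m, fun k => ?_⟩
  -- descending
  have hdesc : ∀ j : ℕ, ∀ t ∈ T φ U (m + 1 + j), quoHom φ H hH (QuotientGroup.mk' H t) ∈
      U.map (QuotientGroup.mk' H) → QuotientGroup.mk' H t ∈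
        (T φ U (m + 1)).map (QuotientGroup.mk' H) := by
    intro j t ht hφt
    have key : ∀ i, i ≤ j → QuotientGroup.mk' H t ∈
        (T φ U (m + 1 + (j - i))).map (QuotientGroup.mk' H) := by
      intro i
      induction i with
      | zero => intro _; exact ⟨t, ht, rfl⟩
      | succ i ih =>
        intro hi
        have h1 := ih (by omega)
        have e : m + 1 + (j - i) = (m + (j - (i + 1))) + 2 := by omega
        rw [e] at h1
        have h2 := hm (m + (j - (i + 1))) (by omega) (QuotientGroup.mk' H t)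
          (by rw [T_quo]; exact h1)
          (by
            have : m + (j - (i + 1)) + 2 = (m + (j - (i + 1)) + 1) + 1 := rfl
            rw [this]
            exact le_T _ _ _ hφt)
        rw [T_quo] at h2
        have e2 : m + 1 + (j - (i + 1)) = m + (j - (i + 1)) + 1 := by omega
        rw [e2]
        exact h2
    have := key j le_rfl
    simpa using this
  induction k with
  | zero => rw [zero_add, T_one, add_zero]
  | succ k ih =>
    rw [T_succ, ih]
    apply le_antisymm
    · refine sup_le ?_ ?_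
      · rw [Subgroup.map_le_iff_le_comap]
        intro x hx
        rw [Subgroup.mem_subgroupOf] at hx
        rw [Subgroup.mem_comap, Subgroup.mem_subgroupOf]
        exact map_T_le φ U (m + 2 + k) ⟨x, hx, rfl⟩
      · exact Subgroup.comap_mono (T_mono φ U (by omega))
    · intro y hy
      rw [Subgroup.mem_subgroupOf] at hy
      have hy' : (y : G) ∈ ((T φ U (m + 2 + k + 1) : Subgroup G) : Set G) := hy
      rw [hg (m + 2 + k)] at hy'
      obtain ⟨s, ⟨t, ht, rfl⟩, u, hu, he⟩ := hy'
      have he' : φ t * u = y := he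
      -- the image of `t`
      have hq : QuotientGroup.mk' H t ∈ (T φ U (m + 1)).map (QuotientGroup.mk' H) := by
        refine hdesc (k + 1) t (by
          have : m + 1 + (k + 1) = m + 2 + k := by ring
          rw [this]; exact ht) ?_
        have h1 : (QuotientGroup.mk' H) (φ t) * QuotientGroup.mk' H u = 1 := by
          rw [← map_mul, he']
          exact (QuotientGroup.eq_one_iff _).2 y.2
        have h2 : quoHom φ H hH (QuotientGroup.mk' H t) = QuotientGroup.mk' H (u⁻¹) := by
          rw [map_inv]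
          exact eq_inv_of_mul_eq_one_left h1
        rw [h2]
        exact ⟨u⁻¹, U.inv_mem hu, rfl⟩
      obtain ⟨t0, ht0, hte⟩ := hq
      have hh : t * t0⁻¹ ∈ H := by
        have h3 : QuotientGroup.mk' H (t * t0⁻¹) = 1 := by
          rw [map_mul, map_inv, hte, mul_inv_cancel]
        exact (QuotientGroup.eq_one_iff _).1 h3
      have hT : t * t0⁻¹ ∈ T φ U (m + 2 + k) :=
        mul_mem ht (inv_mem (T_mono φ U (by omega) ht0))
      have hsplit : (y : G) = φ (t * t0⁻¹) * (φ t0 * u) := by
        rw [← he', map_mul, map_inv]; group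
      have hφh : φ (t * t0⁻¹) ∈ H := hH hh
      have hv : φ t0 * u ∈ H := by
        have : φ t0 * u = (φ (t * t0⁻¹))⁻¹ * y := by rw [hsplit]; group
        rw [this]
        exact H.mul_mem (H.inv_mem hφh) y.2
      have hvT : φ t0 * u ∈ T φ U (m + 2) :=
        mul_mem (map_T_le φ U (m + 1) ⟨t0, ht0, rfl⟩) (le_T φ U (m + 1) hu)
      have hfin : y = resHom φ H hH ⟨t * t0⁻¹, hh⟩ * ⟨φ t0 * u, hv⟩ := by
        apply Subtype.ext
        exact hsplit
      rw [hfin]
      refine Subgroup.mul_mem_sup ?_ ?_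
      · exact ⟨⟨t * t0⁻¹, hh⟩, hT, rfl⟩
      · exact hvT

omit [H.Normal] in
/-- the limit for the traces on `H` -/
theorem rate_res {U : Subgroup G} {m : ℕ}
    (hm : ∀ k : ℕ, T (resHom φ H hH) ((T φ U (m + 2)).subgroupOf H) (k + 1) =
      (T φ U (m + 2 + k)).subgroupOf H)
    (hf : ∀ n, (U.subgroupOf H).relIndex ((T φ U (n + 1)).subgroupOf H) ≠ 0) {L : ℝ}
    (hL : Tendsto (fun n : ℕ => Real.log (((T φ U (m + 2)).subgroupOf H).relIndex
      (T (resHom φ H hH) ((T φ U (m + 2)).subgroupOf H) n)) / n) atTop (𝓝 L)) :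
    Tendsto (fun n : ℕ => Real.log ((U.subgroupOf H).relIndex ((T φ U n).subgroupOf H)) / n)
      atTop (𝓝 L) := by
  set V : Subgroup H := (T φ U (m + 2)).subgroupOf H with hV
  set b : ℕ → ℝ := fun n => Real.log (V.relIndex (T (resHom φ H hH) V n)) with hb
  rw [← tendsto_add_atTop_iff_nat (m + 2)]
  have hform : ∀ k : ℕ, Real.log ((U.subgroupOf H).relIndex
      ((T φ U (k + (m + 2))).subgroupOf H)) =
      Real.log ((U.subgroupOf H).relIndex V) + b (k + 1) := by
    intro k
    have h1 : (U.subgroupOf H).relIndex V * V.relIndex (T (resHom φ H hH) V (k + 1)) =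
        (U.subgroupOf H).relIndex ((T φ U (k + (m + 2))).subgroupOf H) := by
      have e : k + (m + 2) = m + 2 + k := by ring
      rw [e, hm k]
      apply Subgroup.relIndex_mul_relIndex
      · exact Subgroup.comap_mono (le_T φ U (m + 1))
      · exact Subgroup.comap_mono (T_mono φ U (by omega))
    have h2 := hf (k + (m + 1))
    have e2 : k + (m + 1) + 1 = k + (m + 2) := by ring
    rw [e2, ← h1] at h2
    rw [← h1, Nat.cast_mul, Real.log_mul]
    · exact_mod_cast left_ne_zero_of_mul h2
    · exact_mod_cast right_ne_zero_of_mul h2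
  have hev : (fun k : ℕ => Real.log ((U.subgroupOf H).relIndex
      ((T φ U (k + (m + 2))).subgroupOf H)) / ((k + (m + 2) : ℕ) : ℝ)) =
      fun k : ℕ => Real.log ((U.subgroupOf H).relIndex V) * (((k + (m + 2) : ℕ) : ℝ))⁻¹ +
        (b (k + 1) / ((k + 1 : ℕ) : ℝ)) *
          (1 - (m + 1) * (((k + (m + 2) : ℕ) : ℝ))⁻¹) := by
    funext k
    rw [hform k]
    have h1 : ((k + 1 : ℕ) : ℝ) ≠ 0 := by positivity
    have h2 : ((k + (m + 2) : ℕ) : ℝ) ≠ 0 := by positivity
    field_simp
    push_cast
    ring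
  rw [hev]
  have hinv : Tendsto (fun k : ℕ => (((k + (m + 2) : ℕ) : ℝ))⁻¹) atTop (𝓝 0) := by
    have := (tendsto_add_atTop_iff_nat (m + 2)).2 (tendsto_inv_atTop_nhds_zero_nat (𝕜 := ℝ))
    simpa using this
  have hb' : Tendsto (fun k : ℕ => b (k + 1) / ((k + 1 : ℕ) : ℝ)) atTop (𝓝 L) :=
    (tendsto_add_atTop_iff_nat 1).2 hL
  have h3 := (hinv.const_mul (Real.log ((U.subgroupOf H).relIndex V))).add
    (hb'.mul ((hinv.const_mul ((m : ℝ) + 1)).const_sub 1))
  simpa using h3

end R337.Ent
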